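import Pool.Agent.Helper14.LE.St

/-!
# Project LE, module CUR: straightening the right end and correcting the area
-/

set_option autoImplicit false

namespace Pool.Agent.Helper76.LE

open Pool.Agent.Helper14.LK Pool.Agent.Helper14.LE
open scoped ContDiff Topology
open MeasureTheory Set Filter

private theorem cut_exists (S B : ℝ) (hB : 0 ≤ B) : ∃ (T : ℝ → ℝ) (M : ℝ), 0 < M ∧
    ContDiff ℝ ∞ T ∧ (∀ s, s ≤ S → T s = 0) ∧ (∀ s, S + M ≤ s → T s = 1) ∧
    (∀ s, 0 ≤ T s) ∧ (∀ s, T s ≤ 1) ∧ ∀ s, |deriv T s| * B ≤ 1 / 2 := by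
  have hsm : ContDiff ℝ ∞ Real.smoothTransition := Real.smoothTransition.contDiff
  have hdc : Continuous (deriv Real.smoothTransition) :=
    hsm.continuous_deriv (by norm_num)
  obtain ⟨C, hC⟩ := (isCompact_Icc (a := (0 : ℝ)) (b := 1)).exists_bound_of_continuousOn
    hdc.continuousOn
  have hC0 : 0 ≤ C := (norm_nonneg _).trans (hC 0 (by norm_num))
  have hCa : ∀ t, |deriv Real.smoothTransition t| ≤ C := by
    intro t
    by_cases h1 : t < 0
    · have : deriv Real.smoothTransition t = 0 := by
        apply IsLocalMin.deriv_eq_zero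
        exact Filter.Eventually.of_forall fun s => by
          rw [Real.smoothTransition.zero_of_nonpos h1.le]
          exact Real.smoothTransition.nonneg s
      rw [this, abs_zero]; exact hC0
    by_cases h2 : 1 < t
    · have : deriv Real.smoothTransition t = 0 := by
        apply IsLocalMax.deriv_eq_zero
        exact Filter.Eventually.of_forall fun s => by
          rw [Real.smoothTransition.one_of_one_le h2.le]
          exact Real.smoothTransition.le_one s
      rw [this, abs_zero]; exact hC0
    exact hC t ⟨not_lt.1 h1, not_lt.1 h2⟩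
  have hM : 0 < 2 * C * B + 1 := by positivity
  refine ⟨fun s => Real.smoothTransition ((s - S) / (2 * C * B + 1)), 2 * C * B + 1, hM, ?_, ?_, ?_,
    ?_, ?_, ?_⟩
  · exact hsm.comp ((contDiff_id.sub contDiff_const).div_const _)
  · intro s hs
    exact Real.smoothTransition.zero_of_nonpos (div_nonpos_of_nonpos_of_nonneg (by linarith) hM.le)
  · intro s hs
    apply Real.smoothTransition.one_of_one_le
    rw [le_div_iff₀ hM]; linarith
  · intro s; exact Real.smoothTransition.nonneg _
  · intro s; exact Real.smoothTransition.le_one _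
  · intro s
    have h1 : HasDerivAt (fun s => Real.smoothTransition ((s - S) / (2 * C * B + 1)))
        (deriv Real.smoothTransition ((s - S) / (2 * C * B + 1)) * (1 / (2 * C * B + 1))) s := by
      have h2 : HasDerivAt (fun s : ℝ => (s - S) / (2 * C * B + 1)) (1 / (2 * C * B + 1)) s :=
        ((hasDerivAt_id s).sub_const S).div_const _
      exact (hsm.differentiable (by norm_num) _).hasDerivAt.comp s h2
    rw [h1.deriv, abs_mul, abs_of_nonneg (by positivity : (0 : ℝ) ≤ 1 / (2 * C * B + 1))]
    have h3 := hCa ((s - S) / (2 * C * B + 1))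
    calc |deriv Real.smoothTransition ((s - S) / (2 * C * B + 1))| * (1 / (2 * C * B + 1)) * B
        ≤ C * (1 / (2 * C * B + 1)) * B := by gcongr
      _ = (C * B) / (2 * C * B + 1) := by ring
      _ ≤ 1 / 2 := by
        rw [div_le_div_iff₀ hM (by norm_num)]; nlinarith

private theorem bump_exists : ∃ β : ℝ → ℝ, ContDiff ℝ ∞ β ∧ (∀ s, 0 ≤ β s) ∧
    (∀ s, s ≤ 0 → β s = 0) ∧ (∀ s, 1 ≤ s → β s = 0) ∧ ∫ s in (0 : ℝ)..2, β s = 1 := by
  let f : ContDiffBump (1 / 2 : ℝ) := ⟨1 / 4, 1 / 2, by norm_num, by norm_num⟩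
  have hsup : Function.support (f.normed volume) = Metric.ball (1 / 2 : ℝ) (1 / 2) :=
    f.support_normed_eq
  have hz : ∀ s : ℝ, s ∉ Metric.ball (1 / 2 : ℝ) (1 / 2) → f.normed volume s = 0 := by
    intro s hs
    rw [← hsup] at hs
    exact Function.notMem_support.1 hs
  refine ⟨f.normed volume, f.contDiff_normed, fun s => f.nonneg_normed s, ?_, ?_, ?_⟩
  · intro s hs
    apply hz
    rw [Metric.mem_ball, Real.dist_eq, abs_lt]
    rintro ⟨h1, h2⟩
    linarith
  · intro s hs
    apply hz
    rw [Metric.mem_ball, Real.dist_eq, abs_lt]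
    rintro ⟨h1, h2⟩
    linarith
  · rw [intervalIntegral.integral_eq_integral_of_support_subset, f.integral_normed]
    rw [hsup]
    intro s hs
    rw [Metric.mem_ball, Real.dist_eq, abs_lt] at hs
    exact ⟨by linarith [hs.1], by linarith [hs.2]⟩

section joint

variable {E : Type} [NormedAddCommGroup E] [NormedSpace ℝ E]

private theorem slice_hasDerivAt {f : E → ℝ → ℂ} (hf : ContDiff ℝ ∞ (Function.uncurry f)) (p : E)
    (s : ℝ) : HasDerivAt (f p) (fderiv ℝ (Function.uncurry f) (p, s) (0, 1)) s := by
  have h1 : HasFDerivAt (Function.uncurry f) (fderiv ℝ (Function.uncurry f) (p, s)) (p, s) :=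
    (hf.differentiable (by norm_num) _).hasFDerivAt
  have h2 : HasDerivAt (fun r : ℝ => ((p, r) : E × ℝ)) (0, 1) s :=
    (hasDerivAt_const s p).prodMk (hasDerivAt_id s)
  exact h1.comp_hasDerivAt s h2

private theorem slice_deriv_smooth {f : E → ℝ → ℂ} (hf : ContDiff ℝ ∞ (Function.uncurry f)) :
    ContDiff ℝ ∞ (fun q : E × ℝ => deriv (f q.1) q.2) := by
  have h1 : (fun q : E × ℝ => deriv (f q.1) q.2) =
      fun q : E × ℝ => fderiv ℝ (Function.uncurry f) q (0, 1) := by
    funext q
    exact (slice_hasDerivAt hf q.1 q.2).deriv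
  rw [h1]
  exact (hf.fderiv_right (m := ∞) (by norm_num)).clm_apply contDiff_const

end joint

/-- Module CUR. -/
theorem hCUR (hPAR : StPAR) : StCUR := by
  intro E _ _ _ γ a R S hR hRS hγ ha haR hγR hγl hγr hmono hinj hne
  have : ProperSpace E := FiniteDimensional.proper ℝ E
  obtain ⟨B, hB⟩ : ∃ B : ℝ, 0 ≤ B ∧ ∀ p, ‖a p‖ ≤ B := by
    obtain ⟨B, hB⟩ := (isCompact_closedBall (0 : E) R).exists_bound_of_continuousOn
      ha.continuous.continuousOn
    refine ⟨max B 0, le_max_right _ _, fun p => ?_⟩
    by_cases hp : ‖p‖ ≤ R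
    · exact (hB p (by simpa using hp)).trans (le_max_left _ _)
    · rw [haR p (not_le.1 hp).le, norm_zero]; exact le_max_right _ _
  obtain ⟨hB0, hB⟩ := hB
  obtain ⟨T, M, hM, hTs, hT0, hT1, hTn, hTl, hTd⟩ := cut_exists S B hB0
  obtain ⟨β, hβs, hβn, hβ0, hβ1, hβi⟩ := bump_exists
  have hTdz : ∀ s, s ≤ S → deriv T s = 0 := by
    intro s hs
    apply IsLocalMin.deriv_eq_zero
    exact Filter.Eventually.of_forall fun t => by rw [hT0 s hs]; exact hTn t
  have hβdz : ∀ s, β s = 0 → deriv β s = 0 := by
    intro s hs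
    apply IsLocalMin.deriv_eq_zero
    exact Filter.Eventually.of_forall fun t => by rw [hs]; exact hβn t
  have hTD : ∀ s, HasDerivAt T (deriv T s) s := fun s =>
    (hTs.differentiable (by norm_num) s).hasDerivAt
  have hβD : ∀ s, HasDerivAt β (deriv β s) s := fun s =>
    (hβs.differentiable (by norm_num) s).hasDerivAt
  have hγD : ∀ p s, HasDerivAt (γ p) (deriv (γ p) s) s := by
    intro p s
    have h := slice_hasDerivAt hγ p s
    rw [h.deriv]; exact h
  -- the straightened curve
  let ζ₁ : E → ℝ → ℂ := fun p s => γ p s - (T s : ℂ) * a p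
  have hζ₁s : ContDiff ℝ ∞ (Function.uncurry ζ₁) := by
    have h1 : ContDiff ℝ ∞ (fun q : E × ℝ => (T q.2 : ℂ)) :=
      Complex.ofRealCLM.contDiff.comp (hTs.comp contDiff_snd)
    exact hγ.sub (h1.mul (ha.comp contDiff_fst))
  have hζ₁D : ∀ p s, HasDerivAt (ζ₁ p) (deriv (γ p) s - ((deriv T s : ℝ) : ℂ) * a p) s := by
    intro p s
    exact (hγD p s).sub ((hTD s).ofReal_comp.mul_const (a p))
  let A : E → ℝ := fun p => ∫ s in Icc (-S) (S + M), (ζ₁ p s).im * (deriv (ζ₁ p) s).re
  have hint : ContDiff ℝ ∞ (Function.uncurry fun (p : E) (s : ℝ) =>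
      (ζ₁ p s).im * (deriv (ζ₁ p) s).re) := by
    have h1 : ContDiff ℝ ∞ (fun q : E × ℝ => (ζ₁ q.1 q.2).im) := Complex.imCLM.contDiff.comp hζ₁s
    have h2 : ContDiff ℝ ∞ (fun q : E × ℝ => (deriv (ζ₁ q.1) q.2).re) :=
      Complex.reCLM.contDiff.comp (slice_deriv_smooth hζ₁s)
    exact h1.mul h2
  have hAs : ContDiff ℝ ∞ A := (hPAR ℝ E ℝ volume (Icc (-S) (S + M)) isCompact_Icc _ hint).1
  have hA0 : ∀ p, R ≤ ‖p‖ → A p = 0 := by
    intro p hp
    have h1 : ∀ s, (ζ₁ p s).im = 0 := by
      intro s
      show (γ p s - (T s : ℂ) * a p).im = 0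
      rw [hγR p s hp, haR p hp, mul_zero, sub_zero, Complex.ofReal_im]
    show ∫ s in Icc (-S) (S + M), (ζ₁ p s).im * (deriv (ζ₁ p) s).re = 0
    simp only [h1, zero_mul, integral_zero]
  -- the corrected curve
  let ζ : E → ℝ → ℂ := fun p s => ζ₁ p s - Complex.I * ((A p * β (s - (S + M)) : ℝ) : ℂ)
  let σ : E → ℝ → ℝ := fun p s => s - T s * (a p).re
  have hζs : ContDiff ℝ ∞ (Function.uncurry ζ) := by
    have h1 : ContDiff ℝ ∞ (fun q : E × ℝ => A q.1 * β (q.2 - (S + M))) :=
      (hAs.comp contDiff_fst).mul (hβs.comp (contDiff_snd.sub contDiff_const))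
    exact hζ₁s.sub (contDiff_const.mul (Complex.ofRealCLM.contDiff.comp h1))
  have hζD : ∀ p s, HasDerivAt (ζ p) (deriv (γ p) s - ((deriv T s : ℝ) : ℂ) * a p -
      Complex.I * ((A p * deriv β (s - (S + M)) : ℝ) : ℂ)) s := by
    intro p s
    have h1 : HasDerivAt (fun r : ℝ => β (r - (S + M))) (deriv β (s - (S + M))) s := by
      have h2 := (hβD (s - (S + M))).comp s ((hasDerivAt_id s).sub_const (S + M))
      rw [mul_one] at h2
      exact h2
    exact (hζ₁D p s).sub (((h1.const_mul (A p)).ofReal_comp).const_mul Complex.I)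
  have hσs : ContDiff ℝ ∞ (Function.uncurry σ) := by
    have h1 : ContDiff ℝ ∞ (fun q : E × ℝ => T q.2 * (a q.1).re) :=
      (hTs.comp contDiff_snd).mul (Complex.reCLM.contDiff.comp (ha.comp contDiff_fst))
    exact contDiff_snd.sub h1
  have hσD : ∀ p s, HasDerivAt (σ p) (1 - deriv T s * (a p).re) s := by
    intro p s
    exact (hasDerivAt_id s).sub ((hTD s).mul_const _)
  have hσpos : ∀ p s, 0 < 1 - deriv T s * (a p).re := by
    intro p s
    have h1 : deriv T s * (a p).re ≤ 1 / 2 := by
      calc deriv T s * (a p).re ≤ |deriv T s * (a p).re| := le_abs_self _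
        _ = |deriv T s| * |(a p).re| := abs_mul _ _
        _ ≤ |deriv T s| * B := by
          gcongr
          exact (Complex.abs_re_le_norm _).trans (hB p)
        _ ≤ 1 / 2 := hTd s
    linarith
  have hσm : ∀ p, StrictMono (σ p) := by
    intro p
    apply strictMono_of_deriv_pos
    intro s
    rw [(hσD p s).deriv]
    exact hσpos p s
  have hσS : ∀ p s, s ≤ S → σ p s = s := by
    intro p s hs
    show s - T s * (a p).re = s
    rw [hT0 s hs]; ring
  -- values
  have hζl : ∀ p s, s ≤ S → ζ p s = γ p s := by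
    intro p s hs
    show γ p s - (T s : ℂ) * a p - Complex.I * ((A p * β (s - (S + M)) : ℝ) : ℂ) = γ p s
    rw [hT0 s hs, hβ0 (s - (S + M)) (by linarith)]
    simp
  have hζre : ∀ p s, S ≤ s → (ζ p s).re = σ p s + (a p).re := by
    intro p s hs
    show (γ p s - (T s : ℂ) * a p - Complex.I * ((A p * β (s - (S + M)) : ℝ) : ℂ)).re =
      s - T s * (a p).re + (a p).re
    rw [hγr p s hs]
    simp only [Complex.sub_re, Complex.add_re, Complex.ofReal_re, Complex.mul_re,
      Complex.ofReal_im, Complex.I_re, Complex.I_im]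
    ring
  have hlt : ∀ p s s', S < s → s' < s → (ζ p s').re < (ζ p s).re := by
    intro p s s' hs hss
    rw [hζre p s hs.le]
    by_cases h : S ≤ s'
    · rw [hζre p s' h]
      have := hσm p hss
      linarith
    · have h' : s' < S := not_le.1 h
      rw [hζl p s' h'.le]
      have h1 := hmono p S s' le_rfl h'
      have h2 : (γ p S).re = S + (a p).re := by
        rw [hγr p S le_rfl]; simp
      have h3 := hσm p hs
      rw [hσS p S le_rfl] at h3
      linarith
  have hζinj : ∀ p, Function.Injective (ζ p) := by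
    have key : ∀ p s s', s' < s → ζ p s' ≠ ζ p s := by
      intro p s s' h heq
      by_cases hs : S < s
      · have := hlt p s s' hs h
        rw [heq] at this
        exact lt_irrefl _ this
      · have hs' : s ≤ S := not_lt.1 hs
        rw [hζl p s hs', hζl p s' (h.le.trans hs')] at heq
        exact h.ne (hinj p heq)
    intro p s s' h
    rcases lt_trichotomy s s' with h1 | h1 | h1
    · exact absurd h (key p s' s h1)
    · exact h1
    · exact absurd h.symm (key p s s' h1)
  have hγd1 : ∀ p s, S < s → deriv (γ p) s = 1 := by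
    intro p s hs
    have h1 : γ p =ᶠ[𝓝 s] fun r : ℝ => (r : ℂ) + a p := by
      filter_upwards [Ioi_mem_nhds hs] with r hr
      exact hγr p r (le_of_lt hr)
    rw [h1.deriv_eq]
    have h2 : HasDerivAt (fun r : ℝ => (r : ℂ) + a p) 1 s :=
      ((hasDerivAt_id s).ofReal_comp).add_const (a p)
    exact h2.deriv
  have hζdl : ∀ p s, s ≤ S → deriv (ζ p) s = deriv (γ p) s := by
    intro p s hs
    rw [(hζD p s).deriv, hTdz s hs, hβdz _ (hβ0 (s - (S + M)) (by linarith))]
    simp
  have hζdr : ∀ p s, S < s → (deriv (ζ p) s).re = 1 - deriv T s * (a p).re := by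
    intro p s hs
    rw [(hζD p s).deriv, hγd1 p s hs]
    simp
  have hζne : ∀ p s, deriv (ζ p) s ≠ 0 := by
    intro p s
    by_cases hs : s ≤ S
    · rw [hζdl p s hs]; exact hne p s
    · intro h
      have h1 := hζdr p s (not_le.1 hs)
      rw [h, Complex.zero_re] at h1
      have h2 := hσpos p s
      linarith
  -- the right end
  have hζend : ∀ p s, S + M ≤ s → ζ p s = s - Complex.I * ((A p * β (s - (S + M)) : ℝ) : ℂ) := by
    intro p s hs
    show γ p s - (T s : ℂ) * a p - Complex.I * ((A p * β (s - (S + M)) : ℝ) : ℂ) = _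
    rw [hT1 s hs, hγr p s (by linarith)]
    push_cast
    ring
  have hgc : ∀ p, Continuous fun s => (ζ p s).im * (deriv (ζ p) s).re := by
    intro p
    have h1 : Continuous fun s => ζ p s :=
      hζs.continuous.comp (continuous_const.prodMk continuous_id)
    have h2 : Continuous fun s => deriv (ζ p) s :=
      (slice_deriv_smooth hζs).continuous.comp (continuous_const.prodMk continuous_id)
    exact (Complex.continuous_im.comp h1).mul (Complex.continuous_re.comp h2)
  have hSp : 0 < S := hR.trans_le hRS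
  refine ⟨ζ, σ, S + M + 2, ⟨by linarith, hζs, hζinj, hζne, ?_, ?_, ?_⟩, hσs, ?_, hσS, ?_⟩
  · -- far
    intro p s hs
    rcases le_abs.1 hs with h | h
    · rw [hζend p s (by linarith), hβ1 (s - (S + M)) (by linarith)]
      simp
    · rw [hζl p s (by linarith), hγl p s (by linarith)]
  · -- farp
    intro p s hp
    have hp' : R ≤ ‖p‖ := by linarith
    show γ p s - (T s : ℂ) * a p - Complex.I * ((A p * β (s - (S + M)) : ℝ) : ℂ) = _
    rw [hγR p s hp', haR p hp', hA0 p hp']
    simp
  · -- area
    intro p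
    have hI : ∀ u v : ℝ, IntervalIntegrable (fun s => (ζ p s).im * (deriv (ζ p) s).re) volume u v :=
      fun u v => (hgc p).intervalIntegrable u v
    rw [integral_Icc_eq_integral_Ioc, ← intervalIntegral.integral_of_le (by linarith),
      ← intervalIntegral.integral_add_adjacent_intervals (hI (-(S + M + 2)) (-S)) (hI _ _),
      ← intervalIntegral.integral_add_adjacent_intervals (hI (-S) (S + M)) (hI _ _)]
    have e1 : ∫ s in (-(S + M + 2))..(-S), (ζ p s).im * (deriv (ζ p) s).re = 0 := by
      have h : ∫ s in (-(S + M + 2))..(-S), (ζ p s).im * (deriv (ζ p) s).re =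
          ∫ _s in (-(S + M + 2))..(-S), (0 : ℝ) := by
        apply intervalIntegral.integral_congr
        intro s hs
        rw [uIcc_of_le (by linarith)] at hs
        show (ζ p s).im * (deriv (ζ p) s).re = 0
        rw [hζl p s (by linarith [hs.2]), hγl p s (by linarith [hs.2]), Complex.ofReal_im, zero_mul]
      rw [h, intervalIntegral.integral_zero]
    have e2 : ∫ s in (-S)..(S + M), (ζ p s).im * (deriv (ζ p) s).re = A p := by
      show _ = ∫ s in Icc (-S) (S + M), (ζ₁ p s).im * (deriv (ζ₁ p) s).re
      rw [integral_Icc_eq_integral_Ioc, ← intervalIntegral.integral_of_le (by linarith)]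
      apply intervalIntegral.integral_congr
      intro s hs
      rw [uIcc_of_le (by linarith)] at hs
      show (ζ p s).im * (deriv (ζ p) s).re = (ζ₁ p s).im * (deriv (ζ₁ p) s).re
      have hb := hβ0 (s - (S + M)) (by linarith [hs.2])
      have h1 : ζ p s = ζ₁ p s := by
        show ζ₁ p s - Complex.I * ((A p * β (s - (S + M)) : ℝ) : ℂ) = ζ₁ p s
        rw [hb]; simp
      have h2 : deriv (ζ p) s = deriv (ζ₁ p) s := by
        rw [(hζD p s).deriv, (hζ₁D p s).deriv, hβdz _ hb]; simp
      rw [h1, h2]
    have e3 : ∫ s in (S + M)..(S + M + 2), (ζ p s).im * (deriv (ζ p) s).re = - A p := by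
      have h : ∫ s in (S + M)..(S + M + 2), (ζ p s).im * (deriv (ζ p) s).re =
          ∫ s in (S + M)..(S + M + 2), (- A p) * β (s - (S + M)) := by
        apply intervalIntegral.integral_congr
        intro s hs
        rw [uIcc_of_le (by linarith)] at hs
        show (ζ p s).im * (deriv (ζ p) s).re = (- A p) * β (s - (S + M))
        have hd : deriv T s = 0 := by
          apply IsLocalMax.deriv_eq_zero
          exact Filter.Eventually.of_forall fun t => by rw [hT1 s hs.1]; exact hTl t
        rw [hζdr p s (by linarith [hs.1]), hd, hζend p s hs.1]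
        simp
      rw [h, intervalIntegral.integral_const_mul,
        intervalIntegral.integral_comp_sub_right (fun s => β s) (S + M), sub_self,
        show S + M + 2 - (S + M) = 2 by ring, hβi, mul_one]
    rw [e1, e2, e3]
    ring
  · -- surjective
    intro p
    have hc : Continuous (σ p) := hσs.continuous.comp (continuous_const.prodMk continuous_id)
    have hb : ∀ s, |T s * (a p).re| ≤ B := by
      intro s
      rw [abs_mul, abs_of_nonneg (hTn s)]
      calc T s * |(a p).re| ≤ 1 * |(a p).re| := by
            gcongr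
            exact hTl s
        _ ≤ B := by rw [one_mul]; exact (Complex.abs_re_le_norm _).trans (hB p)
    apply hc.surjective
    · apply Filter.tendsto_atTop_mono (f := fun s => s + (-B))
      · intro s
        have := (abs_le.1 (hb s)).2
        show s + -B ≤ s - T s * (a p).re
        linarith
      · exact tendsto_atTop_add_const_right _ _ tendsto_id
    · apply Filter.tendsto_atBot_mono (f := fun s => s + B)
      · intro s
        have := (abs_le.1 (hb s)).1
        show s - T s * (a p).re ≤ s + B
        linarith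
      · exact tendsto_atBot_add_const_right _ _ tendsto_id
  · -- the last claim
    intro p hp hI
    have hap : a p = ((a p).re : ℂ) := by
      apply Complex.ext
      · simp
      · simp [hp]
    have hA : A p = 0 := by
      have hc1 : Continuous fun s => (ζ₁ p s).im * (deriv (ζ₁ p) s).re :=
        hint.continuous.comp (continuous_const.prodMk continuous_id)
      have hI1 : ∀ u v : ℝ, IntervalIntegrable (fun s => (ζ₁ p s).im * (deriv (ζ₁ p) s).re)
          volume u v := fun u v => hc1.intervalIntegrable u v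
      show ∫ s in Icc (-S) (S + M), (ζ₁ p s).im * (deriv (ζ₁ p) s).re = 0
      rw [integral_Icc_eq_integral_Ioc, ← intervalIntegral.integral_of_le (by linarith),
        ← intervalIntegral.integral_add_adjacent_intervals (hI1 (-S) S) (hI1 _ _)]
      have e1 : ∫ s in (-S)..S, (ζ₁ p s).im * (deriv (ζ₁ p) s).re = 0 := by
        rw [← hI, integral_Icc_eq_integral_Ioc, ← intervalIntegral.integral_of_le (by linarith)]
        apply intervalIntegral.integral_congr
        intro s hs
        rw [uIcc_of_le (by linarith)] at hs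
        show (ζ₁ p s).im * (deriv (ζ₁ p) s).re = (γ p s).im * (deriv (γ p) s).re
        rw [(hζ₁D p s).deriv, hTdz s hs.2]
        show (γ p s - (T s : ℂ) * a p).im * _ = _
        rw [hT0 s hs.2]
        simp
      have e2 : ∫ s in S..(S + M), (ζ₁ p s).im * (deriv (ζ₁ p) s).re = 0 := by
        have h : ∫ s in S..(S + M), (ζ₁ p s).im * (deriv (ζ₁ p) s).re =
            ∫ _s in S..(S + M), (0 : ℝ) := by
          apply intervalIntegral.integral_congr
          intro s hs
          rw [uIcc_of_le (by linarith)] at hs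
          show (ζ₁ p s).im * (deriv (ζ₁ p) s).re = 0
          have h1 : (ζ₁ p s).im = 0 := by
            show (γ p s - (T s : ℂ) * a p).im = 0
            rw [hγr p s hs.1]
            simp [hp]
          rw [h1, zero_mul]
        rw [h, intervalIntegral.integral_zero]
      rw [e1, e2, add_zero]
    intro s
    by_cases hs : s ≤ S
    · rw [hζl p s hs, hσS p s hs]
    · have hs' : S ≤ s := (not_le.1 hs).le
      have h1 : S ≤ σ p s := by
        have := (hσm p).monotone hs'
        rwa [hσS p S le_rfl] at this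
      rw [hγr p (σ p s) h1]
      show γ p s - (T s : ℂ) * a p - Complex.I * ((A p * β (s - (S + M)) : ℝ) : ℂ) =
        ((s - T s * (a p).re : ℝ) : ℂ) + a p
      rw [hγr p s hs', hA, hap]
      push_cast
      simp only [Complex.ofReal_re]
      ring

end Pool.Agent.Helper76.LE
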